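import Pool.Agent.Helper93.ET.St
import Pool.Agent.Helper75.FU.All

/-!
# Project ET (MP_b1e6de_al), module POW: Frobenius on rows
-/

set_option autoImplicit false

namespace Pool.Agent.Helper16.ET

open Pool.Agent.Helper93.ET Pool.Agent.Helper91.GU

theorem hPOW : StPOW := by
  intro A _ r q hr hq v hv
  obtain ⟨s, rfl⟩ : ∃ s, r = s + 1 := ⟨r - 1, by omega⟩
  have e : Unit ⊕ Fin (s + 1) ≃ Fin (s + 1 + 1) := Fintype.equivOfCardEq (by simp; omega)
  have h1 : Um (v ∘ e) := by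
    have h2 : (1 : A) ∈ Ideal.span (Set.range v) := by rw [hv]; trivial
    obtain ⟨c, hc⟩ := Ideal.mem_span_range_iff_exists_fun.1 h2
    refine ⟨c ∘ e, ?_⟩
    rw [← hc]
    show ∑ i, v (e i) * c (e i) = _
    rw [Equiv.sum_comp e (fun i => v i * c i)]
    exact Finset.sum_congr rfl fun i _ => mul_comm _ _
  obtain ⟨g, hg, hvg⟩ := Pool.Agent.Helper75.FU.aG4.{0} A s q (by omega) hq (v ∘ e) h1
  refine ⟨g.submatrix e.symm e.symm, ?_, ?_⟩
  · rw [Matrix.det_submatrix_equiv_self]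
    exact hg
  · rw [Matrix.submatrix_vecMul_equiv, Equiv.symm_symm, hvg]
    funext j
    simp
end Pool.Agent.Helper16.ET
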